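import Pool.Agent.Lib.MP_4a944d_co.Main
import Pool.Agent.Lib.MP_e78360_co.PAll

set_option autoImplicit false

namespace Pool.Agent.Results.MP_e78360_co.HandicapOne

open Pool.Agent.Lib.MP_4a944d_co

/-- For every `ε > 0`, all large `q` and all `N ≥ (√2 / e + ε) q 2 ^ (q / 2)` the first player has a
strategy in the edge-claiming game on `K_N` that completes a `K_q` (within `t` moves, where `t` full
rounds fit on the board) before the second player owns a clique on at least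
`q + min (300 log q) (2 log₂ (N / ((√2 / e) q 2 ^ (q / 2))) + ε)` vertices. -/
theorem result : ∀ ε : ℝ, 0 < ε →
    ∃ q₀ : ℕ, ∀ q : ℕ, q₀ ≤ q → ∀ N : ℕ,
      (Real.sqrt 2 / Real.exp 1 + ε) * q * (2 : ℝ) ^ (q / 2 : ℝ) ≤ N →
      ∃ t : ℕ, 2 * t ≤ N.choose 2 ∧
      ∃ σ : (i : ℕ) → (Fin i → Fin N × Fin N) → Fin N × Fin N,
        ∀ b : ℕ → Fin N × Fin N,
          (∀ i < t, (b i).1 < (b i).2 ∧
              (∀ j ≤ i, b i ≠ σ j (fun l : Fin j => b l.val)) ∧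
              (∀ j < i, b i ≠ b j)) →
          ∃ k < t,
            (∀ i ≤ k, (σ i (fun l : Fin i => b l.val)).1 < (σ i (fun l : Fin i => b l.val)).2 ∧
                (∀ j < i, σ i (fun l : Fin i => b l.val) ≠ σ j (fun l : Fin j => b l.val)) ∧
                (∀ j < i, σ i (fun l : Fin i => b l.val) ≠ b j)) ∧
            (∃ S : Finset (Fin N), S.card = q ∧
                ∀ x ∈ S, ∀ y ∈ S, x < y →
                  ∃ i ≤ k, σ i (fun l : Fin i => b l.val) = (x, y)) ∧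
            ¬ ∃ j < k, ∃ S : Finset (Fin N),
                q + min (300 * Real.log q) (2 * Real.logb 2
                  (N / (Real.sqrt 2 / Real.exp 1 * q * 2 ^ (q / 2 : ℝ))) + ε) ≤ S.card ∧
                ∀ x ∈ S, ∀ y ∈ S, x < y → ∃ i ≤ j, b i = (x, y) := by
  intro ε hε
  obtain ⟨q₀, h⟩ := Filter.eventually_atTop.1 (Lib.MP_e78360_co.win_one hε)
  refine ⟨q₀, fun q hq N hN => ?_⟩
  obtain ⟨t, ht, h⟩ := h q hq N hN
  obtain ⟨σ, hσ⟩ := strategy h
  refine ⟨t, ht, σ, fun b hb => ?_⟩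
  obtain ⟨k, hk, hleg, ⟨Q, q1, q2⟩, hB⟩ := hσ b hb
  refine ⟨k, hk, hleg, ⟨Q, q1, fun x hx y hy l => ?_⟩, fun ⟨j, hj, S, s1, s2⟩ =>
    hB j hj ⟨S, s1, fun x hx y hy l => ?_⟩⟩
  · obtain ⟨i, hi, e⟩ := Finset.mem_image.1 (q2 x hx y hy l)
    exact ⟨i, Nat.lt_succ_iff.1 (Finset.mem_range.1 hi), e⟩
  · obtain ⟨i, hi, e⟩ := s2 x hx y hy l
    exact Finset.mem_image.2 ⟨i, Finset.mem_range.2 (Nat.lt_succ_iff.2 hi), e⟩

end Pool.Agent.Results.MP_e78360_co.HandicapOne
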